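import Pool.Agent.Lib_helper52.YG.Defs

set_option autoImplicit false

namespace Pool.Agent.YG

open MeasureTheory ENNReal Set Filter Topology Pool.Agent.EPS

variable {d : ℕ}

theorem t1_conv (α β : Measure (EuclideanSpace ℝ (Fin d))) :
    MeasurePreserving (fun p : EuclideanSpace ℝ (Fin d) × EuclideanSpace ℝ (Fin d) => p.1 + p.2)
      (α.prod β) (α.conv β) :=
  ⟨measurable_fst.add measurable_snd, rfl⟩

/-- laws of the partial sums -/
theorem laws (α β γ : Measure (EuclideanSpace ℝ (Fin d))) [IsProbabilityMeasure α]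
    [IsProbabilityMeasure β] [IsProbabilityMeasure γ] :
    MeasurePreserving (fun p : _ × _ × _ => p.1) (α.prod (β.prod γ)) α ∧
    MeasurePreserving (fun p : _ × _ × _ => p.2.1) (α.prod (β.prod γ)) β ∧
    MeasurePreserving (fun p : _ × _ × _ => p.2.2) (α.prod (β.prod γ)) γ ∧
    MeasurePreserving (fun p : _ × _ × _ => p.2.1 + p.2.2) (α.prod (β.prod γ)) (β.conv γ) ∧
    MeasurePreserving (fun p : _ × _ × _ => p.1 + p.2.2) (α.prod (β.prod γ)) (α.conv γ) ∧
    MeasurePreserving (fun p : _ × _ × _ => p.1 + p.2.1) (α.prod (β.prod γ)) (α.conv β) ∧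
    MeasurePreserving (fun p : _ × _ × _ => p.1 + p.2.1 + p.2.2) (α.prod (β.prod γ))
      ((α.conv β).conv γ) := by
  have h1 : MeasurePreserving (Prod.fst) (α.prod (β.prod γ)) α := measurePreserving_fst
  have h2 : MeasurePreserving (Prod.snd) (α.prod (β.prod γ)) (β.prod γ) := measurePreserving_snd
  have h3 : MeasurePreserving (Prod.fst) (β.prod γ) β := measurePreserving_fst
  have h4 : MeasurePreserving (Prod.snd) (β.prod γ) γ := measurePreserving_snd
  have h5 : MeasurePreserving (Prod.map id Prod.fst) (α.prod (β.prod γ)) (α.prod β) :=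
    (MeasurePreserving.id α).prod h3
  have h6 : MeasurePreserving (Prod.map id Prod.snd) (α.prod (β.prod γ)) (α.prod γ) :=
    (MeasurePreserving.id α).prod h4
  have h7 : MeasurePreserving MeasurableEquiv.prodAssoc.symm (α.prod (β.prod γ))
      ((α.prod β).prod γ) := (measurePreserving_prodAssoc α β γ).symm _
  have h8 := (t1_conv α β).prod (MeasurePreserving.id γ)
  refine ⟨h1, h3.comp h2, h4.comp h2, (t1_conv β γ).comp h2, (t1_conv α γ).comp h6,
    (t1_conv α β).comp h5, ?_⟩
  exact (t1_conv (α.conv β) γ).comp (h8.comp h7)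

end Pool.Agent.YG
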